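import Mathlib

/-!
# Arbitrarily long snake graphs with saturated Newton polytopes

We disprove the statement that for every bordered surface with marked points the Newton polytopes
(with boundary frozen variables) of all arcs with a sufficiently long snake graph are not saturated.
The surface is the twice-punctured monogon: the disc with one marked point `A` on the boundary and
two punctures `P`, `Q`.  It is given by an explicit ideal triangulation with four arcs, one boundary
segment and three triangles.  For every `k` there is an arc from `A` to `P` which winds `k` times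
around the two punctures, crosses the triangulation in `3 k + 1` points, and has a saturated Newton
polytope (a quadrilateral for `k ≥ 1`).
-/

set_option autoImplicit false

namespace Pool.Agent.Results.MP_a9587b_co.LongSaturated

/-- The edges of an ideal triangulation: `Sum.inl i` is the arc number `i`, `Sum.inr j` is the
boundary segment number `j`. -/
abbrev Edge (n m : ℕ) := Fin n ⊕ Fin m

/-- Integer Laurent polynomials in the variables `x_e`, one variable for every arc and one (frozen)
variable for every boundary segment.  The exponent vectors are the functions `Edge n m → ℤ`. -/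
abbrev Laurent (n m : ℕ) := AddMonoidAlgebra ℤ (Edge n m → ℤ)

/-- The variable `x_e`. -/
noncomputable def X {n m : ℕ} (e : Edge n m) : Laurent n m :=
  AddMonoidAlgebra.single (Pi.single e 1) 1

/-- The inverse `x_e⁻¹` of the variable `x_e`. -/
noncomputable def Xinv {n m : ℕ} (e : Edge n m) : Laurent n m :=
  AddMonoidAlgebra.single (Pi.single e (-1)) 1

/-- An ideal triangulation (without self-folded triangles) of a bordered surface with marked
points, given by its gluing pattern.  It is a finite multiset of triangles; a triangle is the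
cyclic (counterclockwise) list of its three sides, which are pairwise distinct.  Every arc is a
side of exactly two triangles and every boundary segment is a side of exactly one triangle; the
surface obtained by gluing the triangles along the equally named sides (respecting the
orientations) is connected, has non-empty boundary, and the triangulation has at least one arc.
The marked points are the vertices of the triangles, the ones in the interior being the
punctures. -/
structure IdealTriangulation (n m : ℕ) where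
  /-- the triangles, each as the cyclic list of its sides -/
  triangles : Multiset (Cycle (Edge n m))
  isTriangle : ∀ t ∈ triangles, t.length = 3 ∧ t.Nodup
  arc_sides : ∀ i : Fin n, (triangles.filter (fun t => Sum.inl i ∈ t)).card = 2
  boundary_side : ∀ j : Fin m, (triangles.filter (fun t => Sum.inr j ∈ t)).card = 1
  connected : ∀ A : Finset (Edge n m), A.Nonempty →
    (∀ t ∈ triangles, (∃ e ∈ A, e ∈ t) → ∀ e : Edge n m, e ∈ t → e ∈ A) → A = Finset.univ
  hasArc : 0 < n
  bordered : 0 < m

/-- A seed of the cluster algebra of the surface with boundary frozen variables: an ideal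
triangulation together with the (Laurent expansions in the initial variables of the) variables
attached to its edges. -/
structure Seed (n m : ℕ) where
  /-- the triangulation of the seed -/
  T : IdealTriangulation n m
  /-- the variables attached to its edges -/
  x : Edge n m → Laurent n m

/-- The initial seed attached to the triangulation `T`. -/
noncomputable def initialSeed {n m : ℕ} (T : IdealTriangulation n m) : Seed n m := ⟨T, X⟩

/-- The flip of an arc `τ`: the two triangles `(τ, a, b)` and `(τ, c, d)` containing `τ` form a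
quadrilateral with the sides `a, b, c, d` in this cyclic order; `τ` is replaced by the other
diagonal (which keeps the name `τ`), the new triangles are `(τ, b, c)` and `(τ, d, a)`, and the
variable of the new arc is determined by the exchange (Ptolemy) relation
`x_τ x'_τ = x_a x_c + x_b x_d`. -/
def Flip {n m : ℕ} (S S' : Seed n m) : Prop :=
  ∃ (τ : Fin n) (a b c d : Edge n m) (R : Multiset (Cycle (Edge n m))),
    S.T.triangles = ([Sum.inl τ, a, b] : Cycle (Edge n m)) ::ₘ
      ([Sum.inl τ, c, d] : Cycle (Edge n m)) ::ₘ R ∧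
    S'.T.triangles = ([Sum.inl τ, b, c] : Cycle (Edge n m)) ::ₘ
      ([Sum.inl τ, d, a] : Cycle (Edge n m)) ::ₘ R ∧
    (∀ e, e ≠ Sum.inl τ → S'.x e = S.x e) ∧
    S.x (Sum.inl τ) * S'.x (Sum.inl τ) = S.x a * S.x c + S.x b * S.x d

/-- `f` is the Laurent expansion, in the variables of the initial triangulation `T`, of the cluster
variable of an arc of the surface: it is attached to an arc of a triangulation obtained from `T`
by a sequence of flips. -/
def IsArcVariable {n m : ℕ} (T : IdealTriangulation n m) (f : Laurent n m) : Prop :=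
  ∃ S : Seed n m, Relation.ReflTransGen Flip (initialSeed T) S ∧ ∃ τ : Fin n, S.x (Sum.inl τ) = f

/-- The Ptolemy relation in the quadrilateral with vertices `s` (the starting point of a curve),
the right end `u` of the arc `e`, the vertex `p` of the triangle `(e, c, d)` opposite to `e`, and
the left end `v` of `e`; here `c` joins `u` and `p`, `d` joins `p` and `v`, and `ℓ`, `r` are the
lambda lengths of the segments from `s` to `v` and to `u`.  The value is the lambda length of the
segment from `s` to `p`. -/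
noncomputable def ptolemy {n m : ℕ} (e c d : Edge n m) (ℓ r : Laurent n m) : Laurent n m :=
  Xinv e * (ℓ * X c + r * X d)

/-- `Strip T w e c d ℓ r`: a curve starts at a marked point `s` and crosses successively the arcs
of the list `w` of the triangulation `T`, never leaving a triangle through the side through which
it entered it.  The last arc crossed is `e`, the curve has entered the triangle `(e, c, d)`
(sides in counterclockwise order), and `ℓ` and `r` are the lambda lengths of the segments from `s`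
to the left and the right end of `e` (in the strip of triangles crossed so far). -/
inductive Strip {n m : ℕ} (T : IdealTriangulation n m) :
    List (Fin n) → Edge n m → Edge n m → Edge n m → Laurent n m → Laurent n m → Prop
  /-- The curve starts at the vertex of the triangle `(τ, a, b)` opposite to `τ`, and crosses the
  arc `τ` into the other triangle `(τ, c, d)` which contains it. -/
  | start (τ : Fin n) (a b c d : Edge n m)
      (h : ([Sum.inl τ, a, b] : Cycle (Edge n m)) ::ₘ {([Sum.inl τ, c, d] : Cycle (Edge n m))} ≤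
        T.triangles) :
      Strip T [τ] (Sum.inl τ) c d (X a) (X b)
  /-- The curve leaves the triangle `(e, σ, d)` through the side `σ`, which contains the right end
  of `e`, and enters the other triangle `(σ, c', d')` which contains `σ`. -/
  | right {w : List (Fin n)} {e d : Edge n m} {σ : Fin n} {ℓ r : Laurent n m} (c' d' : Edge n m)
      (h : ([e, Sum.inl σ, d] : Cycle (Edge n m)) ::ₘ {([Sum.inl σ, c', d'] : Cycle (Edge n m))} ≤
        T.triangles) :
      Strip T w e (Sum.inl σ) d ℓ r →
      Strip T (w ++ [σ]) (Sum.inl σ) c' d' (ptolemy e (Sum.inl σ) d ℓ r) r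
  /-- The curve leaves the triangle `(e, c, σ)` through the side `σ`, which contains the left end
  of `e`, and enters the other triangle `(σ, c', d')` which contains `σ`. -/
  | left {w : List (Fin n)} {e c : Edge n m} {σ : Fin n} {ℓ r : Laurent n m} (c' d' : Edge n m)
      (h : ([e, c, Sum.inl σ] : Cycle (Edge n m)) ::ₘ {([Sum.inl σ, c', d'] : Cycle (Edge n m))} ≤
        T.triangles) :
      Strip T w e c (Sum.inl σ) ℓ r →
      Strip T (w ++ [σ]) (Sum.inl σ) c' d' ℓ (ptolemy e c (Sum.inl σ) ℓ r)

/-- The curve from a marked point to a marked point which crosses successively the arcs of the list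
`w` of `T` (a reduced path, so that the number of crossings with `T` is minimal) and then ends in
the vertex of the last triangle opposite to the last arc crossed has the lambda length `f`. -/
def HasCrossings {n m : ℕ} (T : IdealTriangulation n m) (w : List (Fin n)) (f : Laurent n m) :
    Prop :=
  ∃ (e c d : Edge n m) (ℓ r : Laurent n m), Strip T w e c d ℓ r ∧ f = ptolemy e c d ℓ r

/-- The Newton polytope of `f`: the convex hull of the support of `f`. -/
def newtonPolytope {n m : ℕ} (f : Laurent n m) : Set (Edge n m → ℝ) :=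
  convexHull ℝ ((fun (a : Edge n m → ℤ) (e : Edge n m) => (a e : ℝ)) '' {a | f.coeff a ≠ 0})

/-- The Newton polytope of `f` is saturated: all its lattice points are in the support of `f`. -/
def Saturated {n m : ℕ} (f : Laurent n m) : Prop :=
  ∀ a : Edge n m → ℤ, (fun e : Edge n m => (a e : ℝ)) ∈ newtonPolytope f → f.coeff a ≠ 0

/-- The denominator of `f` (as a Laurent polynomial in the variables of the arcs) is the product of
the variables of the arcs in the list `w`, with multiplicities. -/
def HasDenominator {n m : ℕ} (f : Laurent n m) (w : List (Fin n)) : Prop :=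
  ∀ i : Fin n, (∀ a, f.coeff a ≠ 0 → -(w.count i : ℤ) ≤ a (Sum.inl i)) ∧
    ∃ a, f.coeff a ≠ 0 ∧ a (Sum.inl i) = -(w.count i : ℤ)

/-! ### The twice-punctured monogon -/

abbrev a1 : Edge 4 1 := Sum.inl 0
abbrev a2 : Edge 4 1 := Sum.inl 1
abbrev a3 : Edge 4 1 := Sum.inl 2
abbrev a4 : Edge 4 1 := Sum.inl 3
abbrev bd : Edge 4 1 := Sum.inr 0

/-- The triangulation of the monogon with two punctures: the marked point `A` on the boundary, the
punctures `P`, `Q`; the arc `a1` joins `A` and `P`, the arcs `a2`, `a4` join `A` and `Q`, and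
`a3` joins `P` and `Q`. -/
def TA : IdealTriangulation 4 1 where
  triangles := {([a1, a3, a4] : Cycle (Edge 4 1)), ([a1, a2, a3] : Cycle (Edge 4 1)),
    ([a2, bd, a4] : Cycle (Edge 4 1))}
  isTriangle := by decide
  arc_sides := by decide
  boundary_side := by decide
  connected := by decide
  hasArc := by decide
  bordered := by decide

/-- The triangulation obtained from `TA` by the flip of `a2`. -/
def TB : IdealTriangulation 4 1 where
  triangles := {([a4, a3, a2] : Cycle (Edge 4 1)), ([a4, a1, a3] : Cycle (Edge 4 1)),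
    ([a1, bd, a2] : Cycle (Edge 4 1))}
  isTriangle := by decide
  arc_sides := by decide
  boundary_side := by decide
  connected := by decide
  hasArc := by decide
  bordered := by decide

/-- The triangulation obtained from `TB` by the flip of `a1`. -/
def TC : IdealTriangulation 4 1 where
  triangles := {([a2, a3, a1] : Cycle (Edge 4 1)), ([a2, a4, a3] : Cycle (Edge 4 1)),
    ([a4, bd, a1] : Cycle (Edge 4 1))}
  isTriangle := by decide
  arc_sides := by decide
  boundary_side := by decide
  connected := by decide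
  hasArc := by decide
  bordered := by decide

/-- Labels of the edges: `u1, u2, u4` on `a1, a2, a4`, and the initial variables on `a3` and on
the boundary segment. -/
noncomputable def lab (u1 u2 u4 : Laurent 4 1) : Edge 4 1 → Laurent 4 1 :=
  Sum.elim ![u1, u2, X a3, u4] (fun j => X (Sum.inr j))

lemma flipA {u1 u2 u4 v : Laurent 4 1} (h : u2 * v = u1 * u4 + X a3 * X bd) :
    Flip ⟨TA, lab u1 u2 u4⟩ ⟨TB, lab u1 v u4⟩ := by
  have e1 : TA.triangles = ([Sum.inl 1, a3, a1] : Cycle (Edge 4 1)) ::ₘ
      ([Sum.inl 1, bd, a4] : Cycle (Edge 4 1)) ::ₘ {([a1, a3, a4] : Cycle (Edge 4 1))} := by decide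
  have e2 : TB.triangles = ([Sum.inl 1, a1, bd] : Cycle (Edge 4 1)) ::ₘ
      ([Sum.inl 1, a4, a3] : Cycle (Edge 4 1)) ::ₘ {([a1, a3, a4] : Cycle (Edge 4 1))} := by decide
  refine ⟨1, a3, a1, bd, a4, {([a1, a3, a4] : Cycle (Edge 4 1))}, e1, e2, ?_, ?_⟩
  · rintro (e | e) he
    · fin_cases e <;> simp_all [lab]
    · simp [lab]
  · show u2 * v = X a3 * X bd + u1 * u4
    rw [h, add_comm]

lemma flipB {u1 u2 u4 v : Laurent 4 1} (h : u1 * v = u2 * u4 + X a3 * X bd) :
    Flip ⟨TB, lab u1 u2 u4⟩ ⟨TC, lab v u2 u4⟩ := by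
  have e1 : TB.triangles = ([Sum.inl 0, a3, a4] : Cycle (Edge 4 1)) ::ₘ
      ([Sum.inl 0, bd, a2] : Cycle (Edge 4 1)) ::ₘ {([a4, a3, a2] : Cycle (Edge 4 1))} := by decide
  have e2 : TC.triangles = ([Sum.inl 0, a4, bd] : Cycle (Edge 4 1)) ::ₘ
      ([Sum.inl 0, a2, a3] : Cycle (Edge 4 1)) ::ₘ {([a4, a3, a2] : Cycle (Edge 4 1))} := by decide
  refine ⟨0, a3, a4, bd, a2, {([a4, a3, a2] : Cycle (Edge 4 1))}, e1, e2, ?_, ?_⟩
  · rintro (e | e) he
    · fin_cases e <;> simp_all [lab]
    · simp [lab]
  · show u1 * v = X a3 * X bd + u4 * u2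
    rw [h]; ring

lemma flipC {u1 u2 u4 v : Laurent 4 1} (h : u4 * v = u1 * u2 + X a3 * X bd) :
    Flip ⟨TC, lab u1 u2 u4⟩ ⟨TA, lab u1 u2 v⟩ := by
  have e1 : TC.triangles = ([Sum.inl 3, a3, a2] : Cycle (Edge 4 1)) ::ₘ
      ([Sum.inl 3, bd, a1] : Cycle (Edge 4 1)) ::ₘ {([a2, a3, a1] : Cycle (Edge 4 1))} := by decide
  have e2 : TA.triangles = ([Sum.inl 3, a2, bd] : Cycle (Edge 4 1)) ::ₘ
      ([Sum.inl 3, a1, a3] : Cycle (Edge 4 1)) ::ₘ {([a2, a3, a1] : Cycle (Edge 4 1))} := by decide
  refine ⟨3, a3, a2, bd, a1, {([a2, a3, a1] : Cycle (Edge 4 1))}, e1, e2, ?_, ?_⟩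
  · rintro (e | e) he
    · fin_cases e <;> simp_all [lab]
    · simp [lab]
  · show u4 * v = X a3 * X bd + u2 * u1
    rw [h]; ring

/-- One turn of the curve around the two punctures. -/
noncomputable def st : ℕ → Laurent 4 1 × Laurent 4 1
  | 0 => (0, X a2)
  | k + 1 =>
    let ℓ := (st k).1
    let r := (st k).2
    let w1 := ptolemy a2 a3 a1 ℓ r
    let w2 := ptolemy a1 a3 a4 ℓ w1
    (ptolemy a4 a2 bd ℓ w2, w2)

noncomputable def L (k : ℕ) : Laurent 4 1 := (st k).1
noncomputable def R (k : ℕ) : Laurent 4 1 := (st k).2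
noncomputable def F (k : ℕ) : Laurent 4 1 := ptolemy a2 a3 a1 (L k) (R k)

lemma L_zero : L 0 = 0 := rfl
lemma R_zero : R 0 = X a2 := rfl
lemma F_def (k : ℕ) : F k = Xinv a2 * (L k * X a3 + R k * X a1) := rfl
lemma R_succ (k : ℕ) : R (k + 1) = Xinv a1 * (L k * X a3 + F k * X a4) := rfl
lemma L_succ (k : ℕ) : L (k + 1) = Xinv a4 * (L k * X a2 + R (k + 1) * X bd) := rfl

lemma inv_mul (e : Edge 4 1) : Xinv e * X e = 1 := by
  unfold X Xinv
  rw [AddMonoidAlgebra.single_mul_single, ← Pi.single_add, AddMonoidAlgebra.one_def]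
  simp

lemma F_zero : F 0 = X a1 := by
  have h2 := inv_mul a2
  rw [F_def, L_zero, R_zero]
  linear_combination (X a1) * h2

lemma R_one : R 1 = X a4 := by
  have h1 := inv_mul a1
  rw [R_succ, L_zero, F_zero]
  linear_combination (X a4) * h1

lemma L_one : L 1 = X bd := by
  have h1 := inv_mul a4
  rw [L_succ, L_zero, R_one]
  linear_combination (X bd) * h1

/-- the linear relation (R1) -/
lemma lin1 (k : ℕ) : R (k + 1) + R k = Xinv a1 * (X a2 + X a4) * F k := by
  have h2 := inv_mul a2
  have h1 := inv_mul a1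
  have hF : X a2 * F k = L k * X a3 + R k * X a1 := by
    rw [F_def]; linear_combination (L k * X a3 + R k * X a1) * h2
  rw [R_succ]
  linear_combination (-Xinv a1) * hF - R k * h1

/-- the linear relation (R2) -/
lemma lin2 (k : ℕ) : F (k + 1) + F k =
    Xinv a2 * Xinv a4 * (X a1 * X a2 + X a3 * X bd + X a1 * X a4) * R (k + 1) := by
  have h2 := inv_mul a2
  have h1 := inv_mul a1
  have h4 := inv_mul a4
  have hR : X a1 * R (k + 1) = L k * X a3 + F k * X a4 := by
    rw [R_succ]; linear_combination (L k * X a3 + F k * X a4) * h1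
  rw [F_def (k + 1), L_succ]
  linear_combination (-Xinv a2 * Xinv a4 * X a2) * hR + (-F k) * h2 * (Xinv a4 * X a4)
    + (- F k) * h4 - (R (k + 1) * X a1 * Xinv a2) * h4

lemma exch (k : ℕ) : R k * F (k + 1) = F k * R (k + 1) + X a3 * X bd ∧
    F k * R (k + 2) = R (k + 1) * F (k + 1) + X a3 * X bd := by
  have key : ∀ k, R k * F (k + 1) = F k * R (k + 1) + X a3 * X bd →
      F k * R (k + 2) = R (k + 1) * F (k + 1) + X a3 * X bd := by
    intro k h
    have e0 := lin1 k
    have e1 := lin1 (k + 1)
    rw [show k + 1 + 1 = k + 2 from rfl] at e1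
    linear_combination h + F k * e1 - F (k + 1) * e0
  have base : R 0 * F 1 = F 0 * R 1 + X a3 * X bd := by
    have h2 := inv_mul a2
    rw [F_def 1, L_one, R_one, R_zero, F_zero]
    linear_combination (X bd * X a3 + X a4 * X a1) * h2
  have step : ∀ k, F k * R (k + 2) = R (k + 1) * F (k + 1) + X a3 * X bd →
      R (k + 1) * F (k + 2) = F (k + 1) * R (k + 2) + X a3 * X bd := by
    intro k h
    have e0 := lin2 k
    have e1 := lin2 (k + 1)
    rw [show k + 1 + 1 = k + 2 from rfl] at e1
    linear_combination h + R (k + 1) * e1 - R (k + 2) * e0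
  have h1 : ∀ k, R k * F (k + 1) = F k * R (k + 1) + X a3 * X bd := by
    intro k
    induction k with
    | zero => exact base
    | succ k ih => exact step k (key k ih)
  exact ⟨h1 k, key k (h1 k)⟩

/-- The variables of the arcs which wind around the punctures. -/
noncomputable def dd (N : ℕ) : Laurent 4 1 := if N % 2 = 0 then R (N / 2) else F (N / 2)

lemma dd_rec (N : ℕ) : dd N * dd (N + 3) = dd (N + 1) * dd (N + 2) + X a3 * X bd := by
  obtain ⟨k, rfl | rfl⟩ := Nat.even_or_odd' N
  · have h := (exch k).1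
    have e0 : dd (2 * k) = R k := by
      unfold dd; rw [if_pos (by omega)]; congr 1; omega
    have e1 : dd (2 * k + 1) = F k := by
      unfold dd; rw [if_neg (by omega)]; congr 1; omega
    have e2 : dd (2 * k + 2) = R (k + 1) := by
      unfold dd; rw [if_pos (by omega)]; congr 1; omega
    have e3 : dd (2 * k + 3) = F (k + 1) := by
      unfold dd; rw [if_neg (by omega)]; congr 1; omega
    rw [e0, e1, e2, e3, h]
  · have h := (exch k).2
    have e0 : dd (2 * k + 1) = F k := by
      unfold dd; rw [if_neg (by omega)]; congr 1; omega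
    have e1 : dd (2 * k + 1 + 1) = R (k + 1) := by
      unfold dd; rw [if_pos (by omega)]; congr 1; omega
    have e2 : dd (2 * k + 1 + 2) = F (k + 1) := by
      unfold dd; rw [if_neg (by omega)]; congr 1; omega
    have e3 : dd (2 * k + 1 + 3) = R (k + 2) := by
      unfold dd; rw [if_pos (by omega)]; congr 1; omega
    rw [e0, e1, e2, e3, h]

lemma dd_zero : dd 0 = X a2 := by simp [dd, R_zero]
lemma dd_one : dd 1 = X a1 := by simp [dd, F_zero]
lemma dd_two : dd 2 = X a4 := by simp [dd, R_one]

lemma initial_eq : initialSeed TA = ⟨TA, lab (dd 1) (dd 0) (dd 2)⟩ := by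
  unfold initialSeed
  congr 1
  funext e
  rw [dd_zero, dd_one, dd_two]
  rcases e with e | e
  · fin_cases e <;> simp [lab]
  · simp [lab]

lemma reach (j : ℕ) : Relation.ReflTransGen Flip (initialSeed TA)
    ⟨TA, lab (dd (3 * j + 1)) (dd (3 * j)) (dd (3 * j + 2))⟩ := by
  induction j with
  | zero => rw [initial_eq]
  | succ j ih =>
    have h0 := dd_rec (3 * j)
    have h1 := dd_rec (3 * j + 1)
    have h2 := dd_rec (3 * j + 2)
    have f0 := flipA (u1 := dd (3 * j + 1)) (u2 := dd (3 * j)) (u4 := dd (3 * j + 2))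
      (v := dd (3 * j + 3)) h0
    have f1 := flipB (u1 := dd (3 * j + 1)) (u2 := dd (3 * j + 3)) (u4 := dd (3 * j + 2))
      (v := dd (3 * j + 4)) (by rw [mul_comm (dd (3 * j + 3))]; exact h1)
    have f2 := flipC (u1 := dd (3 * j + 4)) (u2 := dd (3 * j + 3)) (u4 := dd (3 * j + 2))
      (v := dd (3 * j + 5)) (by rw [mul_comm (dd (3 * j + 4))]; exact h2)
    exact ((ih.tail f0).tail f1).tail f2

lemma isArc (N : ℕ) : IsArcVariable TA (dd N) := by
  have hr := reach (N / 3)
  refine ⟨_, hr, ?_⟩
  have h3 : N % 3 < 3 := Nat.mod_lt _ (by norm_num)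
  have hN : N = 3 * (N / 3) + N % 3 := by omega
  interval_cases h : N % 3
  · refine ⟨1, ?_⟩
    show dd (3 * (N / 3)) = dd N
    congr 1; omega
  · refine ⟨0, ?_⟩
    show dd (3 * (N / 3) + 1) = dd N
    congr 1; omega
  · refine ⟨3, ?_⟩
    show dd (3 * (N / 3) + 2) = dd N
    congr 1; omega

lemma F_isArc (k : ℕ) : IsArcVariable TA (F k) := by
  have h := isArc (2 * k + 1)
  have e1 : dd (2 * k + 1) = F k := by
    unfold dd; rw [if_neg (by omega)]; congr 1; omega
  rwa [e1] at h

/-- The list of the arcs crossed by the arc number `k`. -/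
def word : ℕ → List (Fin 4)
  | 0 => [1]
  | k + 1 => word k ++ [0] ++ [3] ++ [1]

lemma word_length (k : ℕ) : (word k).length = 3 * k + 1 := by
  induction k with
  | zero => rfl
  | succ k ih => simp [word, ih]; ring

lemma strip (k : ℕ) : Strip TA (word k) a2 a3 a1 (L (k + 1)) (R (k + 1)) := by
  induction k with
  | zero =>
    rw [L_one, R_one]
    exact Strip.start 1 bd a4 a3 a1 (by decide)
  | succ k ih =>
    have s1 := Strip.left (σ := 0) a3 a4 (by decide) ih
    have s2 := Strip.left (σ := 3) a2 bd (by decide) s1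
    have s3 := Strip.right (σ := 1) a3 a1 (by decide) s2
    exact s3

lemma crossings (k : ℕ) : HasCrossings TA (word k) (F (k + 1)) :=
  ⟨a2, a3, a1, _, _, strip k, rfl⟩

/-- `p` has nonnegative coefficients and the support `S`. -/
def HasSupp (p : Laurent 4 1) (S : (Edge 4 1 → ℤ) → Prop) : Prop :=
  ∀ a, 0 ≤ p.coeff a ∧ (p.coeff a ≠ 0 ↔ S a)

lemma HasSupp.add {p q : Laurent 4 1} {S S' : (Edge 4 1 → ℤ) → Prop} (hp : HasSupp p S)
    (hq : HasSupp q S') : HasSupp (p + q) (fun a => S a ∨ S' a) := by
  intro a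
  obtain ⟨h1, h2⟩ := hp a
  obtain ⟨h3, h4⟩ := hq a
  have e : (p + q).coeff a = p.coeff a + q.coeff a := by
    rw [AddMonoidAlgebra.coeff_add]; rfl
  show 0 ≤ (p + q).coeff a ∧ ((p + q).coeff a ≠ 0 ↔ (S a ∨ S' a))
  rw [e, ← h2, ← h4]
  refine ⟨by omega, by omega⟩

lemma HasSupp.shift {p : Laurent 4 1} {S : (Edge 4 1 → ℤ) → Prop} (hp : HasSupp p S)
    (v : Edge 4 1 → ℤ) :
    HasSupp (AddMonoidAlgebra.single v 1 * p) (fun a => S (-v + a)) := by
  intro a
  rw [AddMonoidAlgebra.coeff_single_mul_apply, one_mul]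
  exact hp (-v + a)

lemma HasSupp.congr {p : Laurent 4 1} {S S' : (Edge 4 1 → ℤ) → Prop} (hp : HasSupp p S)
    (h : ∀ a, S a ↔ S' a) : HasSupp p S' := by
  intro a
  rw [← h a]
  exact hp a

lemma HasSupp.zero : HasSupp 0 (fun _ => False) := by
  intro a
  simp

lemma hasSupp_X (e : Edge 4 1) : HasSupp (X e) (fun a => a = Pi.single e 1) := by
  intro a
  unfold X
  rw [AddMonoidAlgebra.coeff_single, Finsupp.single_apply]
  by_cases h : Pi.single e 1 = a
  · rw [if_pos h]; simp [h.symm]
  · rw [if_neg h]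
    refine ⟨le_rfl, ?_⟩
    constructor
    · intro h0; exact absurd rfl h0
    · intro h0; exact absurd h0.symm h

def FS (K : ℤ) (a : Edge 4 1 → ℤ) : Prop :=
  a a1 = 1 - a a3 ∧ a bd = a a3 ∧ a a4 = - a a2 - a a3 ∧
    ((a a3 = 0 ∧ a a2 = -K) ∨ (1 ≤ a a3 ∧ a a3 ≤ K ∧ -K ≤ a a2 ∧ a a2 ≤ K - 1 - a a3))

def RS (K : ℤ) (a : Edge 4 1 → ℤ) : Prop :=
  a a1 = - a a3 ∧ a bd = a a3 ∧ a a4 = 1 - a a2 - a a3 ∧
    ((a a3 = 0 ∧ a a2 = 1 - K) ∨
      (1 ≤ a a3 ∧ a a3 ≤ K - 1 ∧ 1 - K ≤ a a2 ∧ a a2 ≤ K - 1 - a a3))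

def LS (K : ℤ) (a : Edge 4 1 → ℤ) : Prop :=
  a a1 = - a a3 ∧ a bd = a a3 + 1 ∧ a a4 = - a a2 - a a3 ∧
    ((a a3 = 0 ∧ 1 - K ≤ a a2 ∧ a a2 ≤ K - 1 ∧ 2 ∣ (a a2 - (K - 1))) ∨
      (1 ≤ a a3 ∧ a a3 ≤ K - 1 ∧ 1 - K ≤ a a2 ∧ a a2 ≤ K - 1 - a a3))

lemma pt_eq (e c d : Edge 4 1) (ℓ r : Laurent 4 1) :
    Xinv e * (ℓ * X c + r * X d) =
      AddMonoidAlgebra.single (Pi.single e (-1) + Pi.single c 1) 1 * ℓ +
      AddMonoidAlgebra.single (Pi.single e (-1) + Pi.single d 1) 1 * r := by
  have h : ∀ c : Edge 4 1, (AddMonoidAlgebra.single (Pi.single e (-1) + Pi.single c 1) 1 :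
      Laurent 4 1) = Xinv e * X c := by
    intro c
    unfold X Xinv
    rw [AddMonoidAlgebra.single_mul_single, mul_one]
  rw [h, h]
  ring

lemma supp_F {k : ℕ} (hL : HasSupp (L k) (LS k)) (hR : HasSupp (R k) (RS k)) :
    HasSupp (F k) (FS k) := by
  rw [F_def, pt_eq]
  refine ((hL.shift _).add (hR.shift _)).congr ?_
  intro a
  simp only [LS, RS, FS, Pi.add_apply, Pi.neg_apply, Pi.single_apply, reduceCtorEq, if_false,
    Sum.inl.injEq, Fin.reduceEq, if_true]
  omega

lemma supp_R {k : ℕ} (hL : HasSupp (L k) (LS k)) (hF : HasSupp (F k) (FS k)) :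
    HasSupp (R (k + 1)) (RS (k + 1 : ℕ)) := by
  rw [R_succ, pt_eq]
  refine ((hL.shift _).add (hF.shift _)).congr ?_
  intro a
  simp only [LS, RS, FS, Pi.add_apply, Pi.neg_apply, Pi.single_apply, reduceCtorEq, if_false,
    Sum.inl.injEq, Fin.reduceEq, if_true]
  push_cast
  omega

lemma supp_L {k : ℕ} (hL : HasSupp (L k) (LS k)) (hR : HasSupp (R (k + 1)) (RS (k + 1 : ℕ))) :
    HasSupp (L (k + 1)) (LS (k + 1 : ℕ)) := by
  rw [L_succ, pt_eq]
  refine ((hL.shift _).add (hR.shift _)).congr ?_
  intro a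
  simp only [LS, RS, Pi.add_apply, Pi.neg_apply, Pi.single_apply, reduceCtorEq, if_false,
    Sum.inl.injEq, Fin.reduceEq, if_true]
  push_cast
  omega

lemma supp_all (k : ℕ) : HasSupp (L k) (LS k) ∧ HasSupp (R k) (RS k) := by
  induction k with
  | zero =>
    constructor
    · rw [L_zero]
      refine HasSupp.zero.congr ?_
      intro a
      constructor
      · intro h; exact h.elim
      · intro h
        simp only [LS, Nat.cast_zero] at h
        omega
    · rw [R_zero]
      refine (hasSupp_X a2).congr ?_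
      intro a
      have e1 : (Pi.single a2 (1 : ℤ) : Edge 4 1 → ℤ) a1 = 0 := rfl
      have e2 : (Pi.single a2 (1 : ℤ) : Edge 4 1 → ℤ) a2 = 1 := rfl
      have e3 : (Pi.single a2 (1 : ℤ) : Edge 4 1 → ℤ) a3 = 0 := rfl
      have e4 : (Pi.single a2 (1 : ℤ) : Edge 4 1 → ℤ) a4 = 0 := rfl
      have e5 : (Pi.single a2 (1 : ℤ) : Edge 4 1 → ℤ) bd = 0 := rfl
      constructor
      · intro h
        have h' : a = (Pi.single a2 (1 : ℤ) : Edge 4 1 → ℤ) := h
        subst h'
        simp only [RS, Nat.cast_zero]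
        rw [e1, e2, e3, e4, e5]
        omega
      · intro h
        simp only [RS, Nat.cast_zero] at h
        show a = (Pi.single a2 (1 : ℤ) : Edge 4 1 → ℤ)
        funext e
        rcases e with e | e
        · fin_cases e
          · show a a1 = (Pi.single a2 (1 : ℤ) : Edge 4 1 → ℤ) a1
            rw [e1]; omega
          · show a a2 = (Pi.single a2 (1 : ℤ) : Edge 4 1 → ℤ) a2
            rw [e2]; omega
          · show a a3 = (Pi.single a2 (1 : ℤ) : Edge 4 1 → ℤ) a3
            rw [e3]; omega
          · show a a4 = (Pi.single a2 (1 : ℤ) : Edge 4 1 → ℤ) a4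
            rw [e4]; omega
        · fin_cases e
          show a bd = (Pi.single a2 (1 : ℤ) : Edge 4 1 → ℤ) bd
          rw [e5]; omega
  | succ k ih =>
    have hF := supp_F ih.1 ih.2
    have hR := supp_R ih.1 hF
    exact ⟨supp_L ih.1 hR, hR⟩

lemma supp_F' (k : ℕ) : HasSupp (F k) (FS k) := supp_F (supp_all k).1 (supp_all k).2

lemma F_saturated (k : ℕ) : Saturated (F (k + 1)) := by
  set K : ℝ := (k : ℝ) + 1 with hK
  have hsub : newtonPolytope (F (k + 1)) ⊆ {x : Edge 4 1 → ℝ |
      x a1 + x a3 = 1 ∧ x bd - x a3 = 0 ∧ x a4 + x a2 + x a3 = 0 ∧ -(x a3) ≤ 0 ∧ x a3 ≤ K ∧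
      -(x a2) ≤ K ∧ x a2 + x a3 ≤ K - 1 ∧ x a2 - (2 * K - 2) * x a3 ≤ -K} := by
    unfold newtonPolytope
    refine convexHull_min ?_ ?_
    · rintro _ ⟨a, ha, rfl⟩
      have hS : FS ((k + 1 : ℕ) : ℤ) a := ((supp_F' (k + 1)) a).2.1 ha
      obtain ⟨h1, h2, h3, h4⟩ := hS
      have c1 : ((a a1 : ℤ) : ℝ) = 1 - (a a3 : ℝ) := by exact_mod_cast h1
      have c2 : ((a bd : ℤ) : ℝ) = (a a3 : ℝ) := by exact_mod_cast h2
      have c3 : ((a a4 : ℤ) : ℝ) = - (a a2 : ℝ) - (a a3 : ℝ) := by exact_mod_cast h3
      have hK0 : (0 : ℝ) ≤ k := Nat.cast_nonneg k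
      refine ⟨?_, ?_, ?_, ?_, ?_, ?_, ?_, ?_⟩
      · show (a a1 : ℝ) + (a a3 : ℝ) = 1
        linarith
      · show (a bd : ℝ) - (a a3 : ℝ) = 0
        linarith
      · show (a a4 : ℝ) + (a a2 : ℝ) + (a a3 : ℝ) = 0
        linarith
      · show -(a a3 : ℝ) ≤ 0
        have : (0 : ℤ) ≤ a a3 := by omega
        have : (0 : ℝ) ≤ a a3 := by exact_mod_cast this
        linarith
      · show (a a3 : ℝ) ≤ K
        have : a a3 ≤ (k : ℤ) + 1 := by push_cast at h4; omega
        have : (a a3 : ℝ) ≤ (k : ℝ) + 1 := by exact_mod_cast this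
        linarith
      · show -(a a2 : ℝ) ≤ K
        have : -(a a2) ≤ (k : ℤ) + 1 := by push_cast at h4; omega
        have : -(a a2 : ℝ) ≤ (k : ℝ) + 1 := by exact_mod_cast this
        linarith
      · show (a a2 : ℝ) + (a a3 : ℝ) ≤ K - 1
        have : (a a2) + a a3 ≤ (k : ℤ) := by push_cast at h4; omega
        have : (a a2 : ℝ) + (a a3 : ℝ) ≤ (k : ℝ) := by exact_mod_cast this
        linarith
      · show (a a2 : ℝ) - (2 * K - 2) * (a a3 : ℝ) ≤ -K
        rcases h4 with ⟨h5, h6⟩ | ⟨h5, h6, h7, h8⟩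
        · have c5 : (a a3 : ℝ) = 0 := by exact_mod_cast h5
          have c6 : (a a2 : ℝ) = -((k : ℝ) + 1) := by
            push_cast at h6
            exact_mod_cast h6
          rw [c5, c6]; linarith
        · have c5 : (1 : ℝ) ≤ (a a3 : ℝ) := by exact_mod_cast h5
          have c8 : (a a2 : ℝ) ≤ (k : ℝ) - (a a3 : ℝ) := by
            have : a a2 ≤ (k : ℤ) - a a3 := by push_cast at h8; omega
            exact_mod_cast this
          rw [hK]
          nlinarith
    · intro x hx y hy p q hp hq hpq
      obtain ⟨x1, x2, x3, x4, x5, x6, x7, x8⟩ := hx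
      obtain ⟨y1, y2, y3, y4, y5, y6, y7, y8⟩ := hy
      have ev : ∀ e, (p • x + q • y) e = p * x e + q * y e := fun e => rfl
      have hq' : q = 1 - p := by linarith
      simp only [Set.mem_ofPred_eq, ev]
      refine ⟨?_, ?_, ?_, ?_, ?_, ?_, ?_, ?_⟩
      · linear_combination p * x1 + q * y1 + hpq
      · linear_combination p * x2 + q * y2
      · linear_combination p * x3 + q * y3
      · nlinarith [mul_le_mul_of_nonneg_left x4 hp, mul_le_mul_of_nonneg_left y4 hq]
      · have := mul_le_mul_of_nonneg_left x5 hp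
        have := mul_le_mul_of_nonneg_left y5 hq
        have e : K = p * K + q * K := by rw [← add_mul, hpq, one_mul]
        linarith
      · have := mul_le_mul_of_nonneg_left x6 hp
        have := mul_le_mul_of_nonneg_left y6 hq
        have e : K = p * K + q * K := by rw [← add_mul, hpq, one_mul]
        linarith
      · have := mul_le_mul_of_nonneg_left x7 hp
        have := mul_le_mul_of_nonneg_left y7 hq
        have e : K - 1 = p * (K - 1) + q * (K - 1) := by rw [← add_mul, hpq, one_mul]
        linarith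
      · have := mul_le_mul_of_nonneg_left x8 hp
        have := mul_le_mul_of_nonneg_left y8 hq
        have e : -K = p * (-K) + q * (-K) := by rw [← add_mul, hpq, one_mul]
        linarith
  intro a ha
  obtain ⟨g1, g2, g3, g4, g5, g6, g7, g8⟩ := hsub ha
  have h1 : (a a1 : ℝ) + (a a3 : ℝ) = 1 := g1
  have h2 : (a bd : ℝ) - (a a3 : ℝ) = 0 := g2
  have h3 : (a a4 : ℝ) + (a a2 : ℝ) + (a a3 : ℝ) = 0 := g3
  have h4 : -(a a3 : ℝ) ≤ 0 := g4
  have h5 : (a a3 : ℝ) ≤ K := g5
  have h6 : -(a a2 : ℝ) ≤ K := g6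
  have h7 : (a a2 : ℝ) + (a a3 : ℝ) ≤ K - 1 := g7
  have h8 : (a a2 : ℝ) - (2 * K - 2) * (a a3 : ℝ) ≤ -K := g8
  rw [((supp_F' (k + 1)) a).2]
  have i1 : a a1 + a a3 = 1 := by exact_mod_cast h1
  have i2 : a bd - a a3 = 0 := by exact_mod_cast h2
  have i3 : a a4 + a a2 + a a3 = 0 := by exact_mod_cast h3
  have i4 : -(a a3) ≤ 0 := by exact_mod_cast h4
  have i5 : a a3 ≤ (k : ℤ) + 1 := by
    rw [hK] at h5; exact_mod_cast h5
  have i6 : -(a a2) ≤ (k : ℤ) + 1 := by
    rw [hK] at h6; exact_mod_cast h6
  have i7 : a a2 + a a3 ≤ (k : ℤ) := by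
    have : (a a2 : ℝ) + (a a3 : ℝ) ≤ (k : ℝ) := by rw [hK] at h7; linarith
    exact_mod_cast this
  have i8 : a a3 = 0 → a a2 ≤ -((k : ℤ) + 1) := by
    intro h0
    have c0 : (a a3 : ℝ) = 0 := by exact_mod_cast h0
    have : (a a2 : ℝ) ≤ -((k : ℝ) + 1) := by
      have h8' : (a a2 : ℝ) - (2 * K - 2) * (a a3 : ℝ) ≤ -K := h8
      rw [c0, hK] at h8'; linarith
    exact_mod_cast this
  refine ⟨by omega, by omega, by omega, ?_⟩
  push_cast
  by_cases h0 : a a3 = 0
  · left
    have := i8 h0
    exact ⟨h0, by omega⟩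
  · right
    exact ⟨by omega, by omega, by omega, by omega⟩

lemma word_count (k : ℕ) : (word k).count 0 = k ∧ (word k).count 1 = k + 1 ∧
    (word k).count 2 = 0 ∧ (word k).count 3 = k := by
  induction k with
  | zero => decide
  | succ k ih =>
    obtain ⟨h1, h2, h3, h4⟩ := ih
    simp [word, h1, h2, h3, h4]

/-- an exponent vector -/
def vec (x1 x2 x3 x4 x5 : ℤ) : Edge 4 1 → ℤ := Sum.elim ![x1, x2, x3, x4] ![x5]

lemma FS_vec (K x1 x2 x3 x4 x5 : ℤ) : FS K (vec x1 x2 x3 x4 x5) ↔
    (x1 = 1 - x3 ∧ x5 = x3 ∧ x4 = - x2 - x3 ∧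
    ((x3 = 0 ∧ x2 = -K) ∨ (1 ≤ x3 ∧ x3 ≤ K ∧ -K ≤ x2 ∧ x2 ≤ K - 1 - x3))) := Iff.rfl

lemma F_denominator (k : ℕ) : HasDenominator (F (k + 1)) (word k) := by
  obtain ⟨h1, h2, h3, h4⟩ := word_count k
  have hs := supp_F' (k + 1)
  intro i
  fin_cases i
  · constructor
    · intro a ha
      obtain ⟨g1, g2, g3, g4⟩ := ((hs a).2.1 ha)
      show -((word k).count 0 : ℤ) ≤ a a1
      rw [h1]; push_cast at g4 ⊢; omega
    · refine ⟨vec (-k) (-(k + 1)) (k + 1) 0 (k + 1), ?_, ?_⟩
      · rw [(hs _).2, FS_vec]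
        push_cast; omega
      · show (-k : ℤ) = -((word k).count 0 : ℤ)
        rw [h1]
  · constructor
    · intro a ha
      obtain ⟨g1, g2, g3, g4⟩ := ((hs a).2.1 ha)
      show -((word k).count 1 : ℤ) ≤ a a2
      rw [h2]; push_cast at g4 ⊢; omega
    · refine ⟨vec (-k) (-(k + 1)) (k + 1) 0 (k + 1), ?_, ?_⟩
      · rw [(hs _).2, FS_vec]
        push_cast; omega
      · show (-(k + 1) : ℤ) = -((word k).count 1 : ℤ)
        rw [h2]; push_cast; ring
  · constructor
    · intro a ha
      obtain ⟨g1, g2, g3, g4⟩ := ((hs a).2.1 ha)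
      show -((word k).count 2 : ℤ) ≤ a a3
      rw [h3]; push_cast at g4 ⊢; omega
    · refine ⟨vec 1 (-(k + 1)) 0 (k + 1) 0, ?_, ?_⟩
      · rw [(hs _).2, FS_vec]
        exact ⟨by ring, rfl, by ring, Or.inl ⟨rfl, by push_cast; ring⟩⟩
      · show (0 : ℤ) = -((word k).count 2 : ℤ)
        rw [h3]; rfl
  · constructor
    · intro a ha
      obtain ⟨g1, g2, g3, g4⟩ := ((hs a).2.1 ha)
      show -((word k).count 3 : ℤ) ≤ a a4
      rw [h4]; push_cast at g4 ⊢; omega
    · refine ⟨vec 0 (k - 1) 1 (-k) 1, ?_, ?_⟩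
      · rw [(hs _).2, FS_vec]
        exact ⟨by ring, rfl, by ring, Or.inr ⟨le_rfl, by push_cast; omega, by push_cast; omega,
          by push_cast; omega⟩⟩
      · show (-k : ℤ) = -((word k).count 3 : ℤ)
        rw [h4]

/-- For the twice-punctured monogon and its ideal triangulation `TA`, and for every `B`, there is an
arc of this surface which crosses `TA` in more than `B` points, namely successively the arcs of the
list `w` (so that its snake graph with respect to `TA` has `w.length > B` squares), and whose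
cluster variable `f`, expanded in the variables of `TA` and the boundary frozen variable, has a
saturated Newton polytope. -/
theorem result : ∀ B : ℕ, ∃ (w : List (Fin 4)) (f : Laurent 4 1),
    B < w.length ∧ HasCrossings TA w f ∧ IsArcVariable TA f ∧ HasDenominator f w ∧ Saturated f :=
  fun B => ⟨word B, F (B + 1), by rw [word_length]; omega, crossings B,
    F_isArc (B + 1), F_denominator B, F_saturated B⟩

end Pool.Agent.Results.MP_a9587b_co.LongSaturated
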